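import Pool.Agent.Lib.AbcR.Main

/-!
# Integers divisible by the radical of a tall triple
-/

open Finset Filter Topology

namespace Pool.Agent.Lib.AbcR

open Pool.Agent.Lib.Pabc2 Pool.Agent.Lib.Pabc1 Pool.Agent.Lib.AbcL Pool.Agent.Lib.Pabc14

/-- The integers `r ≤ Y` divisible by the radical of a triple with `log c ≥ L`. -/
theorem count_div : ∃ K : ℝ, 0 < K ∧ ∀ (Y : ℕ) (L : ℝ), 0 < L → ∀ E : Finset ℕ,
    (∀ r ∈ E, 1 ≤ r ∧ r ≤ Y ∧ ∃ t : ℕ × ℕ, IsT t ∧ L ≤ ht t ∧ rd t ∣ r) →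
    (E.card : ℝ) ≤ K * Y * L ^ (-(3 / 10) : ℝ) := by
  classical
  obtain ⟨K, L0, hK, hL0, hsum⟩ := sum_inv
  refine ⟨max K (L0 ^ (3 / 10 : ℝ)), lt_max_of_lt_left hK, ?_⟩
  intro Y L hLpos E hE
  have hY0 : (0 : ℝ) ≤ Y := Nat.cast_nonneg Y
  rcases lt_or_ge L L0 with hL | hL
  · -- the trivial bound
    have h1 : E ⊆ Finset.Icc 1 Y := by
      intro r hr
      obtain ⟨h1, h2, _⟩ := hE r hr
      exact Finset.mem_Icc.mpr ⟨h1, h2⟩
    have h2 : (E.card : ℝ) ≤ Y := by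
      have := Finset.card_le_card h1
      rw [Nat.card_Icc, Nat.add_sub_cancel] at this
      exact_mod_cast this
    have h3 : 1 ≤ L0 ^ (3 / 10 : ℝ) * L ^ (-(3 / 10) : ℝ) := by
      rw [Real.rpow_neg hLpos.le, ← div_eq_mul_inv, one_le_div (by positivity)]
      exact Real.rpow_le_rpow hLpos.le hL.le (by norm_num)
    calc (E.card : ℝ) ≤ Y * 1 := by linarith
      _ ≤ Y * (L0 ^ (3 / 10 : ℝ) * L ^ (-(3 / 10) : ℝ)) := mul_le_mul_of_nonneg_left h3 hY0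
      _ = L0 ^ (3 / 10 : ℝ) * Y * L ^ (-(3 / 10) : ℝ) := by ring
      _ ≤ max K (L0 ^ (3 / 10 : ℝ)) * Y * L ^ (-(3 / 10) : ℝ) := by
          have : L0 ^ (3 / 10 : ℝ) ≤ max K (L0 ^ (3 / 10 : ℝ)) := le_max_right _ _
          gcongr
  · choose! t ht using fun r (hr : r ∈ E) => (hE r hr).2.2
    set T := E.image t with hT
    have hTs := hsum L hL T (by
      intro s hs
      rw [hT, Finset.mem_image] at hs
      obtain ⟨r, hr, rfl⟩ := hs
      exact ⟨(ht r hr).1, (ht r hr).2.1⟩)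
    have hcov : E ⊆ T.biUnion (fun s => (Finset.Icc 1 Y).filter (fun r => rd s ∣ r)) := by
      intro r hr
      rw [Finset.mem_biUnion]
      refine ⟨t r, Finset.mem_image_of_mem t hr, ?_⟩
      rw [Finset.mem_filter, Finset.mem_Icc]
      exact ⟨⟨(hE r hr).1, (hE r hr).2.1⟩, (ht r hr).2.2⟩
    have hmult : ∀ s : ℕ × ℕ, ((((Finset.Icc 1 Y).filter (fun r => rd s ∣ r)).card : ℕ) : ℝ) ≤
        Y * (1 / (rd s : ℝ)) := by
      intro s
      have h1 : ((Finset.Icc 1 Y).filter (fun r => rd s ∣ r)).card = Y / rd s := by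
        have := Nat.Ioc_filter_dvd_card_eq_div Y (rd s)
        rw [← this]
        congr 1
      rw [h1, mul_one_div]
      exact Nat.cast_div_le
    have h1 : (E.card : ℝ) ≤ ∑ s ∈ T, (Y : ℝ) * (1 / (rd s : ℝ)) := by
      have h2 := (Finset.card_le_card hcov).trans Finset.card_biUnion_le
      have h3 : (E.card : ℝ) ≤
          ∑ s ∈ T, ((((Finset.Icc 1 Y).filter (fun r => rd s ∣ r)).card : ℕ) : ℝ) := by
        exact_mod_cast h2
      exact h3.trans (Finset.sum_le_sum (fun s _ => hmult s))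
    rw [← Finset.mul_sum] at h1
    calc (E.card : ℝ) ≤ Y * ∑ s ∈ T, 1 / (rd s : ℝ) := h1
      _ ≤ Y * (K * L ^ (-(3 / 10) : ℝ)) := mul_le_mul_of_nonneg_left hTs hY0
      _ = K * Y * L ^ (-(3 / 10) : ℝ) := by ring
      _ ≤ max K (L0 ^ (3 / 10 : ℝ)) * Y * L ^ (-(3 / 10) : ℝ) := by
          have : K ≤ max K (L0 ^ (3 / 10 : ℝ)) := le_max_left _ _
          gcongr

end Pool.Agent.Lib.AbcR
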