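import Pool.Agent.Lib.Pabc14.Final
import Pool.Agent.Lib.AbcL.Ready

/-!
# The sum of the inverse radicals of the tall triples
-/

open Finset Filter Topology

namespace Pool.Agent.Lib.AbcR

open Pool.Agent.Lib.Pabc2 Pool.Agent.Lib.Pabc1 Pool.Agent.Lib.AbcL Pool.Agent.Lib.Pabc14

/-- The height of a triple of radical at most `n` is at most `n ^ (2.1)`. -/
theorem height2 : ∀ᶠ n : ℕ in atTop, ∀ t : ℕ × ℕ, IsT t → rd t ≤ n →
    ht t ≤ (n : ℝ) ^ (21 / 10 : ℝ) := by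
  filter_upwards [Pabc9.height Pabc9.thmE (1 / 10) (by norm_num), eventually_ge_atTop 1]
    with n h1 hn1 t hI hrd
  obtain ⟨R, hR⟩ := pf_nonempty hI
  have hn0 : (0 : ℝ) < n := by exact_mod_cast hn1
  have h2 := h1 t hI hrd R hR
  refine h2.trans ?_
  have h3 : ∏ p ∈ (N t).primeFactors.erase R, (p : ℝ) ≤ n := by
    have h4 : ∏ p ∈ (N t).primeFactors.erase R, p ≤ rd t := by
      unfold rd
      apply Finset.prod_le_prod_of_subset_of_one_le' (Finset.erase_subset _ _)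
      intro p hp _
      exact (Nat.prime_of_mem_primeFactors hp).one_lt.le
    have h5 : ((∏ p ∈ (N t).primeFactors.erase R, p : ℕ) : ℝ) ≤ n := by
      exact_mod_cast h4.trans hrd
    rw [Nat.cast_prod] at h5
    exact h5
  have h6 : 0 ≤ ∏ p ∈ (N t).primeFactors.erase R, (p : ℝ) :=
    Finset.prod_nonneg (fun p _ => Nat.cast_nonneg p)
  calc (∏ p ∈ (N t).primeFactors.erase R, (p : ℝ)) ^ 2 * (n : ℝ) ^ (1 / 10 : ℝ)
      ≤ (n : ℝ) ^ 2 * (n : ℝ) ^ (1 / 10 : ℝ) := by gcongr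
    _ = (n : ℝ) ^ (21 / 10 : ℝ) := by
        rw [← Real.rpow_natCast (n : ℝ) 2, ← Real.rpow_add hn0]
        norm_num

/-- A partial sum of the geometric series. -/
theorem geom_le (x : ℝ) (h0 : 0 ≤ x) (h1 : x < 1) (s : Finset ℕ) :
    ∑ k ∈ s, x ^ k ≤ 1 / (1 - x) := by
  have h := (summable_geometric_of_lt_one h0 h1).sum_le_tsum s (fun k _ => pow_nonneg h0 k)
  rw [tsum_geometric_of_lt_one h0 h1] at h
  rwa [one_div]

/-- `exp (-c L) ≤ K L^(-3/10)`. -/
theorem exp_le (c : ℝ) (hc : 0 < c) : ∃ K : ℝ, 0 < K ∧ ∀ L : ℝ, 1 ≤ L →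
    Real.exp (-(c * L)) ≤ K * L ^ (-(3 / 10) : ℝ) := by
  refine ⟨1 / c, by positivity, fun L hL => ?_⟩
  have hL0 : 0 < L := by linarith
  have h1 : c * L ≤ Real.exp (c * L) := by
    have := Real.add_one_le_exp (c * L)
    linarith
  have h2 : L ^ (-1 : ℝ) ≤ L ^ (-(3 / 10) : ℝ) :=
    Real.rpow_le_rpow_of_exponent_le hL (by norm_num)
  rw [Real.exp_neg]
  have h3 : (Real.exp (c * L))⁻¹ ≤ (c * L)⁻¹ := inv_anti₀ (by positivity) h1
  refine h3.trans ?_
  rw [mul_inv, one_div]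
  rw [Real.rpow_neg_one] at h2
  exact mul_le_mul_of_nonneg_left h2 (by positivity)

/-- The sum of the inverse radicals of the triples with `log c ≥ L`. -/
theorem sum_inv : ∃ K L0 : ℝ, 0 < K ∧ 1 ≤ L0 ∧ ∀ L : ℝ, L0 ≤ L → ∀ T : Finset (ℕ × ℕ),
    (∀ t ∈ T, IsT t ∧ L ≤ ht t) → ∑ t ∈ T, 1 / (rd t : ℝ) ≤ K * L ^ (-(3 / 10) : ℝ) := by
  classical
  obtain ⟨M0, hM01, hM0⟩ := tall_all (1 / 100) (by norm_num)
  obtain ⟨n0, hn0⟩ := ((hM0.and (Pabc9.main_all Pabc9.thmE (1 / 80) (by norm_num))).and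
    (height2.and (eventually_ge_atTop 2))).exists_forall_of_atTop
  obtain ⟨K1, hK1, hexp⟩ := exp_le (1 / (25 * M0)) (by positivity)
  set x : ℝ := (2 : ℝ) ^ (-(1 / 100) : ℝ) with hx
  have hx0 : 0 < x := by positivity
  have hx1 : x < 1 := Real.rpow_lt_one_of_one_lt_of_neg (by norm_num) (by norm_num)
  have hG : 0 < 1 / (1 - x) := by
    have : 0 < 1 - x := by linarith
    positivity
  refine ⟨2 * (1 + K1) * (1 / (1 - x)), (n0 : ℝ) ^ (21 / 10 : ℝ) + 1, by positivity, by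
    have : (0 : ℝ) ≤ (n0 : ℝ) ^ (21 / 10 : ℝ) := by positivity
    linarith, ?_⟩
  intro L hL T hT
  have hn0p : (0 : ℝ) ≤ (n0 : ℝ) ^ (21 / 10 : ℝ) := by positivity
  have hL1 : 1 ≤ L := by linarith
  have hL0 : 0 < L := by linarith
  -- the scale of a triple
  set f : ℕ × ℕ → ℕ := fun t => Nat.log 2 (rd t) + 1 with hf
  obtain ⟨B, hB⟩ : ∃ B : ℕ, ∀ t ∈ T, f t < B := by
    refine ⟨T.sup f + 1, fun t ht => ?_⟩
    exact Nat.lt_succ_of_le (Finset.le_sup ht)
  have hmaps : ∀ t ∈ T, f t ∈ Finset.range B := fun t ht => Finset.mem_range.mpr (hB t ht)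
  have hscale : ∀ t ∈ T, rd t ≤ 2 ^ f t ∧ 2 ^ f t ≤ 2 * rd t := by
    intro t _
    simp only [hf]
    refine ⟨(Nat.lt_pow_succ_log_self (by norm_num) _).le, ?_⟩
    rw [pow_succ, mul_comm]
    exact Nat.mul_le_mul_left _ (Nat.pow_log_le_self 2 (by have := rd_pos t; omega))
  rw [← Finset.sum_fiberwise_of_maps_to hmaps]
  -- one scale
  have key : ∀ k ∈ Finset.range B, ∑ t ∈ T.filter (fun t => f t = k), 1 / (rd t : ℝ) ≤
      2 * (1 + K1) * L ^ (-(3 / 10) : ℝ) * x ^ k := by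
    intro k _
    rcases (T.filter (fun t => f t = k)).eq_empty_or_nonempty with he | ⟨t0, ht0⟩
    · rw [he, Finset.sum_empty]
      positivity
    rw [Finset.mem_filter] at ht0
    obtain ⟨hI0, hh0⟩ := hT t0 ht0.1
    obtain ⟨hs1, hs2⟩ := hscale t0 ht0.1
    rw [ht0.2] at hs1 hs2
    have hkn0 : n0 ≤ 2 ^ k := by
      by_contra hcon
      rw [not_le] at hcon
      have h1 := (hn0 n0 le_rfl).2.1 t0 hI0 (hs1.trans hcon.le)
      linarith
    obtain ⟨⟨g1, g2⟩, g3, g4⟩ := hn0 (2 ^ k) hkn0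
    set n : ℝ := ((2 ^ k : ℕ) : ℝ) with hn
    have hnk : n = (2 : ℝ) ^ k := by rw [hn]; push_cast; rfl
    have hn0' : 0 < n := by rw [hnk]; positivity
    have hn1' : 1 ≤ n := by rw [hnk]; exact one_le_pow₀ (by norm_num)
    have hxk : x ^ k = n ^ (-(1 / 100) : ℝ) := by
      rw [hx, hnk, ← Real.rpow_natCast, ← Real.rpow_natCast, ← Real.rpow_mul (by norm_num),
        ← Real.rpow_mul (by norm_num), mul_comm]
    -- the sum is at most `2 card / n`
    have hsum : ∑ t ∈ T.filter (fun t => f t = k), 1 / (rd t : ℝ) ≤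
        ((T.filter (fun t => f t = k)).card : ℝ) * (2 / n) := by
      rw [← nsmul_eq_mul]
      apply Finset.sum_le_card_nsmul
      intro t ht
      rw [Finset.mem_filter] at ht
      have h1 := (hscale t ht.1).2
      rw [ht.2] at h1
      have h2 : n ≤ 2 * (rd t : ℝ) := by
        rw [hn]
        exact_mod_cast h1
      have h3 : (0 : ℝ) < rd t := by exact_mod_cast rd_pos t
      rw [div_le_div_iff₀ h3 hn0']
      linarith
    refine hsum.trans ?_
    -- `n ≥ L^(10/21)`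
    have hnL : L ^ (10 / 21 : ℝ) ≤ n := by
      have h1 := g3 t0 hI0 hs1
      have h2 : L ≤ n ^ (21 / 10 : ℝ) := hh0.trans h1
      calc L ^ (10 / 21 : ℝ) ≤ (n ^ (21 / 10 : ℝ)) ^ (10 / 21 : ℝ) :=
            Real.rpow_le_rpow hL0.le h2 (by norm_num)
        _ = n := by
            rw [← Real.rpow_mul hn0'.le]
            norm_num
    have hrdk : ∀ t ∈ T.filter (fun t => f t = k), IsT t ∧ rd t ≤ 2 ^ k := by
      intro t ht
      rw [Finset.mem_filter] at ht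
      have h1 := (hscale t ht.1).1
      rw [ht.2] at h1
      exact ⟨(hT t ht.1).1, h1⟩
    rw [hxk]
    by_cases hc : M0 * Real.log n ≤ L
    · have h1 := g1 (T.filter (fun t => f t = k)) (fun t ht => by
        obtain ⟨a1, a2⟩ := hrdk t ht
        rw [Finset.mem_filter] at ht
        exact ⟨a1, a2, hc.trans (hT t ht.1).2⟩)
      have h2 : n ^ (1 / 3 + 1 / 100 : ℝ) * (2 / n) = 2 * (n ^ (-(97 / 150) : ℝ) *
          n ^ (-(1 / 100) : ℝ)) := by
        have e1 : n ^ (1 / 3 + 1 / 100 : ℝ) * (2 / n) =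
            2 * (n ^ (1 / 3 + 1 / 100 : ℝ) * n ^ (-1 : ℝ)) := by
          rw [Real.rpow_neg_one]
          ring
        rw [e1, ← Real.rpow_add hn0', ← Real.rpow_add hn0']
        norm_num
      have h3 : n ^ (-(97 / 150) : ℝ) ≤ L ^ (-(3 / 10) : ℝ) := by
        calc n ^ (-(97 / 150) : ℝ) ≤ (L ^ (10 / 21 : ℝ)) ^ (-(97 / 150) : ℝ) :=
              Real.rpow_le_rpow_of_nonpos (by positivity) hnL (by norm_num)
          _ = L ^ (-(97 / 315) : ℝ) := by
              rw [← Real.rpow_mul hL0.le]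
              norm_num
          _ ≤ L ^ (-(3 / 10) : ℝ) := Real.rpow_le_rpow_of_exponent_le hL1 (by norm_num)
      calc ((T.filter (fun t => f t = k)).card : ℝ) * (2 / n)
          ≤ n ^ (1 / 3 + 1 / 100 : ℝ) * (2 / n) := mul_le_mul_of_nonneg_right h1 (by positivity)
        _ = 2 * (n ^ (-(97 / 150) : ℝ) * n ^ (-(1 / 100) : ℝ)) := h2
        _ ≤ 2 * (L ^ (-(3 / 10) : ℝ) * n ^ (-(1 / 100) : ℝ)) := by gcongr
        _ ≤ 2 * (1 + K1) * L ^ (-(3 / 10) : ℝ) * n ^ (-(1 / 100) : ℝ) := by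
            have : 0 ≤ 2 * K1 * (L ^ (-(3 / 10) : ℝ) * n ^ (-(1 / 100) : ℝ)) := by positivity
            linarith
    · rw [not_le] at hc
      have h1 := g2 (T.filter (fun t => f t = k)) hrdk
      have h1' : ((T.filter (fun t => f t = k)).card : ℝ) ≤ n ^ (19 / 20 : ℝ) := by
        have e1 : (1 - 1 / 16 + 1 / 80 : ℝ) = 19 / 20 := by norm_num
        rw [e1] at h1
        have : (0 : ℝ) ≤ (T.filter (fun t => f t = k)).card := Nat.cast_nonneg _
        linarith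
      have h2 : n ^ (19 / 20 : ℝ) * (2 / n) = 2 * (n ^ (-(1 / 25) : ℝ) *
          n ^ (-(1 / 100) : ℝ)) := by
        have e1 : n ^ (19 / 20 : ℝ) * (2 / n) = 2 * (n ^ (19 / 20 : ℝ) * n ^ (-1 : ℝ)) := by
          rw [Real.rpow_neg_one]
          ring
        rw [e1, ← Real.rpow_add hn0', ← Real.rpow_add hn0']
        norm_num
      have h3 : n ^ (-(1 / 25) : ℝ) ≤ K1 * L ^ (-(3 / 10) : ℝ) := by
        refine le_trans ?_ (hexp L hL1)
        rw [Real.rpow_def_of_pos hn0', Real.exp_le_exp]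
        have hM0' : (0 : ℝ) < M0 := by linarith
        have h4 : 1 / (25 * M0) * L ≤ 1 / (25 * M0) * (M0 * Real.log n) :=
          mul_le_mul_of_nonneg_left hc.le (by positivity)
        have h5 : 1 / (25 * M0) * (M0 * Real.log n) = Real.log n * (1 / 25) := by
          field_simp
        rw [h5] at h4
        linarith
      calc ((T.filter (fun t => f t = k)).card : ℝ) * (2 / n)
          ≤ n ^ (19 / 20 : ℝ) * (2 / n) := mul_le_mul_of_nonneg_right h1' (by positivity)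
        _ = 2 * (n ^ (-(1 / 25) : ℝ) * n ^ (-(1 / 100) : ℝ)) := h2
        _ ≤ 2 * (K1 * L ^ (-(3 / 10) : ℝ) * n ^ (-(1 / 100) : ℝ)) := by gcongr
        _ ≤ 2 * (1 + K1) * L ^ (-(3 / 10) : ℝ) * n ^ (-(1 / 100) : ℝ) := by
            have : 0 ≤ 2 * (L ^ (-(3 / 10) : ℝ) * n ^ (-(1 / 100) : ℝ)) := by positivity
            linarith
  refine (Finset.sum_le_sum key).trans ?_
  rw [← Finset.mul_sum]
  have hg := geom_le x hx0.le hx1 (Finset.range B)
  calc 2 * (1 + K1) * L ^ (-(3 / 10) : ℝ) * ∑ k ∈ Finset.range B, x ^ k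
      ≤ 2 * (1 + K1) * L ^ (-(3 / 10) : ℝ) * (1 / (1 - x)) :=
        mul_le_mul_of_nonneg_left hg (by positivity)
    _ = 2 * (1 + K1) * (1 / (1 - x)) * L ^ (-(3 / 10) : ℝ) := by ring

end Pool.Agent.Lib.AbcR
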